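import Pool.Agent.W851.BE.Stm

/-! Project BE (helper851), task BE-LD1. -/

set_option autoImplicit false

open Polynomial Topology Filter MeasureTheory
open scoped ENNReal

namespace Pool.Agent.W577.BE.Ld1

open Pool.Agent.W95.BK Pool.Agent.W851.BE

universe u

section
variable {K : Type u} [NontriviallyNormedField K] [IsUltrametricDist K]

lemma localDeg_of [IsAlgClosed K] (hU : S_LDU.{u}) (f : RMap K) (x : P1B K) {m : ℕ}
    (h : IsLocalDeg f x m) : localDeg f x = m := by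
  classical
  unfold localDeg
  rw [dif_pos ⟨m, h⟩]
  exact hU K f x _ _ (Nat.find_spec (⟨m, h⟩ : ∃ m, IsLocalDeg f x m)) h

lemma coeff_bound (g : K[X]) : ∃ M : ℝ, 0 < M ∧ ∀ i, ‖g.coeff i‖ ≤ M := by
  refine ⟨1 + ∑ i ∈ Finset.range (g.natDegree + 1), ‖g.coeff i‖, ?_, ?_⟩
  · have : 0 ≤ ∑ i ∈ Finset.range (g.natDegree + 1), ‖g.coeff i‖ :=
      Finset.sum_nonneg fun _ _ => norm_nonneg _
    linarith
  · intro i
    have h0 : 0 ≤ ∑ i ∈ Finset.range (g.natDegree + 1), ‖g.coeff i‖ :=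
      Finset.sum_nonneg fun _ _ => norm_nonneg _
    by_cases hi : i ≤ g.natDegree
    · have := Finset.single_le_sum (f := fun i => ‖g.coeff i‖) (fun _ _ => norm_nonneg _)
        (Finset.mem_range.2 (Nat.lt_succ_of_le hi))
      linarith
    · rw [coeff_eq_zero_of_natDegree_lt (by omega), norm_zero]
      linarith

lemma nIn_eq [IsAlgClosed K] (hN : S_NPOL.{u}) (h : K[X]) (a : K) (r : ℝ) (hr : 0 < r) (n : ℕ)
    (h1 : ∀ i, i ≠ n → ‖(taylor a h).coeff i‖ * r ^ i < ‖(taylor a h).coeff n‖ * r ^ n) :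
    nIn h {w | ‖w - a‖ < r} = n ∧ nIn h {w | ‖w - a‖ ≤ r} = n := by
  have h0 : h ≠ 0 := by
    rintro rfl
    have := h1 (n + 1) (by omega)
    simp at this
  obtain ⟨_, h2, h3, _, h4, _⟩ := hN K h a r h0 hr
  constructor
  · by_contra hne
    have h5 := h1 _ hne
    have h6 := h2 n
    linarith
  · by_contra hne
    have h5 := h1 _ hne
    have h6 := h2 n
    linarith

lemma norm_sub_left {x y : K} (h : ‖y‖ < ‖x‖) : ‖x - y‖ = ‖x‖ := by
  have h1 : ‖x - y‖ ≤ max ‖x‖ ‖y‖ := by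
    rw [sub_eq_add_neg, ← norm_neg y]
    exact IsUltrametricDist.norm_add_le_max x (-y)
  have h2 : ‖x‖ ≤ max ‖x - y‖ ‖y‖ := by
    have e : x = (x - y) + y := by ring
    conv_lhs => rw [e]
    exact IsUltrametricDist.norm_add_le_max _ _
  rw [max_eq_left h.le] at h1
  rcases le_max_iff.1 h2 with h3 | h3
  · exact le_antisymm h1 h3
  · exact absurd h (not_lt.2 h3)

lemma norm_sub_lt {x y : K} {B : ℝ} (h1 : ‖x‖ < B) (h2 : ‖y‖ < B) : ‖x - y‖ < B := by
  have h : ‖x - y‖ ≤ max ‖x‖ ‖y‖ := by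
    rw [sub_eq_add_neg, ← norm_neg y]
    exact IsUltrametricDist.norm_add_le_max x (-y)
  exact lt_of_le_of_lt h (max_lt h1 h2)

/-- count in a disc -/
lemma cnt_ball (hG : S_GLAM.{u}) (f : RMap K) (c : K) (t : ℝ) (b : K) :
    cnt f (ball c t) b = nIn (f.P - C b * f.Q) {w | ‖w - c‖ < t} := by
  classical
  unfold cnt fib nIn
  rw [Multiset.filter_add, Multiset.card_add, Multiset.filter_map, Multiset.card_map]
  have h1 : (Multiset.filter (fun w => w ∈ ball c t)
      (Multiset.replicate (f.d - (f.P - C b * f.Q).natDegree) (OnePoint.infty : P1B K))) = 0 := by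
    rw [Multiset.filter_eq_nil]
    intro w hw hw'
    rw [Multiset.eq_of_mem_replicate hw] at hw'
    obtain ⟨y, hy, _⟩ := hw'
    exact OnePoint.infty_ne_coe y hy
  have h2 : ∀ w : K, ((cl w : BA K) : P1B K) ∈ ball c t ↔ ‖w - c‖ < t := by
    intro w
    constructor
    · rintro ⟨y, hy, hlt⟩
      have hy' : cl w = y := OnePoint.coe_injective hy
      subst hy'
      rwa [(hG K w c).1] at hlt
    · intro h
      exact ⟨cl w, rfl, by rwa [(hG K w c).1]⟩
  have h3 : ∀ (inst : DecidablePred fun w => w ∈ ball c t), (Multiset.filter (fun w => w ∈ ball c t)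
      (Multiset.replicate (f.d - (f.P - C b * f.Q).natDegree) (OnePoint.infty : P1B K))).card = 0 := by
    intro inst
    rw [Multiset.card_eq_zero, Multiset.filter_eq_nil]
    intro w hw hw'
    rw [Multiset.eq_of_mem_replicate hw] at hw'
    obtain ⟨y, hy, _⟩ := hw'
    exact OnePoint.infty_ne_coe y hy
  rw [h3, add_zero]
  congr 1
  exact Multiset.filter_congr fun w _ => h2 w

/-- neighbourhoods of infinity -/
def Ui (K : Type u) [NontriviallyNormedField K] (r : ℝ) : Set (P1B K) :=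
  {x : P1B K | ∀ y : BA K, x = (y : P1B K) → r < lam y 0}

lemma cnt_Ui [IsAlgClosed K] (hG : S_GLAM.{u}) (hA : S_ACT.{u}) (f : RMap K) (r : ℝ) (b : K) :
    cnt f (Ui K r) b + nIn (f.P - C b * f.Q) {w | ‖w - 0‖ ≤ r} = f.d := by
  classical
  have hc := (hA K f).2.2.2.2 b
  have h2 : ∀ w : K, ((cl w : BA K) : P1B K) ∈ Ui K r ↔ r < ‖w - 0‖ := by
    intro w
    constructor
    · intro h
      have := h (cl w) rfl
      rwa [(hG K w 0).1] at this
    · intro h y hy
      have hy' : cl w = y := OnePoint.coe_injective hy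
      subst hy'
      rwa [(hG K w 0).1]
  have h3 : (OnePoint.infty : P1B K) ∈ Ui K r := fun y hy => absurd hy (OnePoint.infty_ne_coe y)
  unfold fib at hc
  rw [Multiset.card_add, Multiset.card_map] at hc
  unfold cnt fib nIn
  rw [Multiset.filter_add, Multiset.card_add, Multiset.filter_map, Multiset.card_map]
  have h4 : ∀ (inst : DecidablePred fun w => w ∈ Ui K r), (Multiset.filter (fun w => w ∈ Ui K r)
      (Multiset.replicate (f.d - (f.P - C b * f.Q).natDegree) (OnePoint.infty : P1B K))) =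
      (Multiset.replicate (f.d - (f.P - C b * f.Q).natDegree) (OnePoint.infty : P1B K)) := by
    intro inst
    rw [Multiset.filter_eq_self]
    intro w hw
    rw [Multiset.eq_of_mem_replicate hw]
    exact h3
  rw [h4]
  have h5 : ((f.P - C b * f.Q).roots.filter (fun w => r < ‖w - 0‖)).card +
      ((f.P - C b * f.Q).roots.filter (fun w => ¬ r < ‖w - 0‖)).card =
      (f.P - C b * f.Q).roots.card := by
    rw [← Multiset.card_add, Multiset.filter_add_not]
  have h6 : ∀ (i1 : DecidablePred ((fun w => w ∈ Ui K r) ∘ fun w : K => ((cl w : BA K) : P1B K))),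
      ((f.P - C b * f.Q).roots.filter ((fun w => w ∈ Ui K r) ∘
        fun w : K => ((cl w : BA K) : P1B K))).card =
      ((f.P - C b * f.Q).roots.filter (fun w => r < ‖w - 0‖)).card := by
    intro i1
    congr 1
    exact Multiset.filter_congr fun w _ => h2 w
  have h7 : ∀ (i1 : DecidablePred fun w => w ∈ {w : K | ‖w - 0‖ ≤ r}),
      ((f.P - C b * f.Q).roots.filter (fun w => w ∈ {w : K | ‖w - 0‖ ≤ r})).card =
      ((f.P - C b * f.Q).roots.filter (fun w => ¬ r < ‖w - 0‖)).card := by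
    intro i1
    congr 1
    refine Multiset.filter_congr fun w _ => ?_
    show ‖w - 0‖ ≤ r ↔ ¬ r < ‖w - 0‖
    exact not_lt.symm
  rw [h6, h7]
  omega

/-! ### the case of a point of `K` -/

lemma caseK [IsAlgClosed K] (hI : S_ISO.{u}) (hG : S_GLAM.{u}) (hB : S_NB.{u}) (hA : S_ACT.{u})
    (hN : S_NPOL.{u}) (f : RMap K) (c : K)
    (hfix : f.act ((cl c : BA K) : P1B K) = ((cl c : BA K) : P1B K))
    (hpos : 0 < sphDeriv f ((cl c : BA K) : P1B K)) :
    IsLocalDeg f ((cl c : BA K) : P1B K) 1 := by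
  obtain ⟨_, hA2, hA3, _, _⟩ := hA K f
  have hQ : f.Q.eval c ≠ 0 := by
    intro h
    rw [hA3 c h] at hfix
    exact OnePoint.infty_ne_coe _ hfix
  have hP : f.P.eval c = c * f.Q.eval c := by
    rw [hA2 c hQ] at hfix
    have h1 : (cl (f.P.eval c / f.Q.eval c) : BA K) = cl c := OnePoint.coe_injective hfix
    have h2 : lam (cl (f.P.eval c / f.Q.eval c) : BA K) c = 0 := by
      rw [h1, (hG K c c).1, sub_self, norm_zero]
    rw [(hG K _ c).1, norm_eq_zero, sub_eq_zero, div_eq_iff hQ] at h2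
    exact h2
  set h₀ : K[X] := f.P - C c * f.Q with hh₀
  have hp0 : (taylor c h₀).coeff 0 = 0 := by
    rw [taylor_coeff_zero, hh₀]
    simp [hP]
  have hp1 : (taylor c h₀).coeff 1 ≠ 0 := by
    rw [taylor_coeff_one]
    intro h
    have hw : (wr f).eval c = 0 := by
      have h3 : (derivative f.P).eval c = c * (derivative f.Q).eval c := by
        rw [hh₀] at h
        simp only [derivative_sub, derivative_mul, derivative_C, zero_mul, zero_add, eval_sub,
          eval_mul, eval_C] at h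
        exact sub_eq_zero.1 h
      unfold wr
      simp only [eval_sub, eval_mul]
      rw [hP, h3]
      ring
    have h4 : sphDeriv f ((cl c : BA K) : P1B K) = ‖(wr f).eval c‖ *
        max 1 ((cl c : BA K) X) ^ 2 / max ((cl c : BA K) f.P) ((cl c : BA K) f.Q) ^ 2 := rfl
    rw [h4, hw, norm_zero, zero_mul, zero_div] at hpos
    exact lt_irrefl _ hpos
  have hn1 : 0 < ‖(taylor c h₀).coeff 1‖ := norm_pos_iff.2 hp1
  obtain ⟨M, hM, hMb⟩ := coeff_bound (taylor c h₀)
  obtain ⟨M', hM', hMb'⟩ := coeff_bound (taylor c f.Q)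
  intro U₀ hU₀
  obtain ⟨A, B, hAA, hBB, hAB⟩ := (hB K).1 (cl c) U₀ hU₀
  -- the radius
  obtain ⟨t₀, ht₀, htA, htB⟩ : ∃ t₀ : ℝ, 0 < t₀ ∧ (∀ p ∈ A, t₀ ≤ p.2) ∧
      ∀ p ∈ B, t₀ ≤ ‖p.1 - c‖ := by
    have e1 : ∀ᶠ t₀ : ℝ in 𝓝[>] 0, ∀ p ∈ A, t₀ ≤ p.2 := by
      rw [Finset.eventually_all]
      intro p hp
      have h1 : 0 < p.2 := lt_of_le_of_lt (by rw [(hG K c p.1).1]; exact norm_nonneg _) (hAA p hp)
      exact (eventually_le_nhds h1).filter_mono nhdsWithin_le_nhds
    have e2 : ∀ᶠ t₀ : ℝ in 𝓝[>] 0, ∀ p ∈ B, t₀ ≤ ‖p.1 - c‖ := by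
      rw [Finset.eventually_all]
      intro p hp
      have h1 : 0 < ‖p.1 - c‖ := by
        have h2 := (hBB p hp).2
        rw [(hG K c p.1).1, norm_sub_rev] at h2
        exact lt_of_le_of_lt (hBB p hp).1 h2
      exact (eventually_le_nhds h1).filter_mono nhdsWithin_le_nhds
    obtain ⟨t₀, h1, h2, h3⟩ := (eventually_mem_nhdsWithin.and (e1.and e2)).exists
    exact ⟨t₀, h1, h2, h3⟩
  obtain ⟨t, ht, ht1, ht2, ht3⟩ : ∃ t : ℝ, 0 < t ∧ t < 1 ∧ t ≤ t₀ ∧
      M * t < ‖(taylor c h₀).coeff 1‖ := by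
    refine ⟨min (1 / 2) (min t₀ (‖(taylor c h₀).coeff 1‖ / (2 * M))), ?_, ?_, ?_, ?_⟩
    · refine lt_min (by norm_num) (lt_min ht₀ (by positivity))
    · exact lt_of_le_of_lt (min_le_left _ _) (by norm_num)
    · exact (min_le_right _ _).trans (min_le_left _ _)
    · have h1 : min (1 / 2) (min t₀ (‖(taylor c h₀).coeff 1‖ / (2 * M))) ≤
          ‖(taylor c h₀).coeff 1‖ / (2 * M) := (min_le_right _ _).trans (min_le_right _ _)
      have h2 := mul_le_mul_of_nonneg_left h1 hM.le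
      have h3 : M * (‖(taylor c h₀).coeff 1‖ / (2 * M)) = ‖(taylor c h₀).coeff 1‖ / 2 := by
        field_simp
      linarith
  refine ⟨ball c t, ?_, ?_, ?_⟩
  · refine ((hB K).2.2.1 c t).mem_nhds ⟨cl c, rfl, ?_⟩
    rw [(hG K c c).1, sub_self, norm_zero]
    exact ht
  · rintro _ ⟨y, rfl, hy⟩
    refine hAB y ?_ ?_
    · intro p hp
      have h1 := hAA p hp
      rw [(hG K c p.1).1, norm_sub_rev] at h1
      exact lt_of_le_of_lt (hI K y p.1 c).1 (max_lt (hy.trans_le (ht2.trans (htA p hp))) h1)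
    · intro p hp
      have h1 := (hI K y p.1 c).2.2.1 (hy.trans_le (ht2.trans (htB p hp)))
      have h2 := (hBB p hp).2
      rw [(hG K c p.1).1, norm_sub_rev] at h2
      rw [h1]
      exact h2
  · rw [hfix]
    have hs : 0 < ‖(taylor c h₀).coeff 1‖ * t / M' := by positivity
    have hmem : ball c (‖(taylor c h₀).coeff 1‖ * t / M') ∈ 𝓝 ((cl c : BA K) : P1B K) := by
      refine ((hB K).2.2.1 c _).mem_nhds ⟨cl c, rfl, ?_⟩
      rw [(hG K c c).1, sub_self, norm_zero]
      exact hs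
    refine Filter.eventually_of_mem (Filter.preimage_mem_comap hmem) ?_
    rintro b ⟨y, hy, hlt⟩
    have hy' : cl b = y := OnePoint.coe_injective hy
    subst hy'
    rw [(hG K b c).1, lt_div_iff₀ hM'] at hlt
    rw [cnt_ball hG]
    refine (nIn_eq hN _ c t ht 1 ?_).1
    have hc : ∀ i, (taylor c (f.P - C b * f.Q)).coeff i =
        (taylor c h₀).coeff i - (b - c) * (taylor c f.Q).coeff i := by
      intro i
      have e : f.P - C b * f.Q = h₀ - C (b - c) * f.Q := by
        rw [hh₀, C_sub]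
        ring
      rw [e, map_sub, taylor_mul, taylor_C, coeff_sub, coeff_C_mul]
    have hq : ∀ i, ‖(b - c) * (taylor c f.Q).coeff i‖ < ‖(taylor c h₀).coeff 1‖ * t := by
      intro i
      rw [norm_mul]
      exact lt_of_le_of_lt (mul_le_mul_of_nonneg_left (hMb' i) (norm_nonneg _)) hlt
    have h1t : ‖(taylor c h₀).coeff 1‖ * t < ‖(taylor c h₀).coeff 1‖ := by
      have := mul_lt_mul_of_pos_left ht1 hn1
      rwa [mul_one] at this
    intro i hi
    rw [hc, hc, norm_sub_left ((hq 1).trans h1t), pow_one]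
    have hti : t ^ i ≤ 1 := pow_le_one₀ ht.le ht1.le
    have hti0 : 0 < t ^ i := pow_pos ht i
    have hkey : ‖(taylor c h₀).coeff i‖ * t ^ i < ‖(taylor c h₀).coeff 1‖ * t := by
      rcases Nat.lt_or_ge i 2 with h2 | h2
      · have h3 : i = 0 := by omega
        subst h3
        rw [hp0, norm_zero, zero_mul]
        positivity
      · have h3 : t ^ i ≤ t ^ 2 := pow_le_pow_of_le_one ht.le ht1.le h2
        calc ‖(taylor c h₀).coeff i‖ * t ^ i ≤ M * t ^ 2 :=
              mul_le_mul (hMb i) h3 hti0.le hM.le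
          _ = (M * t) * t := by ring
          _ < _ := mul_lt_mul_of_pos_right ht3 ht
    have hkey2 : ‖(b - c) * (taylor c f.Q).coeff i‖ * t ^ i < ‖(taylor c h₀).coeff 1‖ * t := by
      refine lt_of_le_of_lt ?_ (hq i)
      have := mul_le_mul_of_nonneg_left hti (norm_nonneg ((b - c) * (taylor c f.Q).coeff i))
      rwa [mul_one] at this
    rw [← lt_div_iff₀ hti0] at hkey hkey2 ⊢
    exact norm_sub_lt hkey hkey2

/-! ### the case of infinity -/

omit [IsUltrametricDist K] in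
lemma wr_zero (f : RMap K) (h1 : f.Q.coeff f.d = 0) (h2 : f.Q.coeff (f.d - 1) = 0) :
    (wr f).coeff (2 * f.d - 2) = 0 := by
  have hP : f.P.natDegree ≤ f.d := f.deg_eq ▸ le_max_left _ _
  have hQ : f.Q.natDegree ≤ f.d := f.deg_eq ▸ le_max_right _ _
  have hpos := f.pos
  by_cases hQ0 : f.Q = 0
  · unfold wr
    rw [hQ0]
    simp
  have hQ2 : f.Q.natDegree + 2 ≤ f.d := by
    by_contra hlt
    have h3 : f.Q.natDegree = f.d ∨ f.Q.natDegree = f.d - 1 := by omega
    rcases h3 with h3 | h3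
    · rw [← h3] at h1
      exact hQ0 (leadingCoeff_eq_zero.1 h1)
    · rw [← h3] at h2
      exact hQ0 (leadingCoeff_eq_zero.1 h2)
  unfold wr
  apply coeff_eq_zero_of_natDegree_lt
  have h3 : (derivative f.P).natDegree ≤ f.d - 1 :=
    (natDegree_derivative_le _).trans (by omega)
  have h4 : (derivative f.Q).natDegree ≤ f.d - 3 :=
    (natDegree_derivative_le _).trans (by omega)
  have h5 : (derivative f.P * f.Q).natDegree ≤ (f.d - 1) + (f.d - 2) :=
    natDegree_mul_le_of_le h3 (by omega)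
  have h6 : (f.P * derivative f.Q).natDegree < 2 * f.d - 2 := by
    rcases Nat.lt_or_ge f.d 3 with h7 | h7
    · have h8 : derivative f.Q = 0 := by
        rw [natDegree_eq_zero.1 (by omega : f.Q.natDegree = 0) |>.choose_spec.symm]
        exact derivative_C
      rw [h8, mul_zero, natDegree_zero]
      omega
    · refine lt_of_le_of_lt (natDegree_mul_le_of_le hP h4) (by omega)
  exact lt_of_le_of_lt (natDegree_sub_le _ _) (max_lt (by omega) h6)

lemma caseI [IsAlgClosed K] (hG : S_GLAM.{u}) (hB : S_NB.{u}) (hA : S_ACT.{u})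
    (hN : S_NPOL.{u}) (f : RMap K)
    (hfix : f.act (OnePoint.infty : P1B K) = OnePoint.infty)
    (hpos : 0 < sphDeriv f (OnePoint.infty : P1B K)) :
    IsLocalDeg f (OnePoint.infty : P1B K) 1 := by
  classical
  have hQd : f.Q.coeff f.d = 0 := by
    by_contra h
    have h1 : f.act (OnePoint.infty : P1B K) =
        ((cl (f.P.coeff f.d / f.Q.coeff f.d) : BA K) : P1B K) := by
      unfold RMap.act
      exact if_neg h
    rw [h1] at hfix
    exact OnePoint.coe_ne_infty _ hfix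
  have hQ1 : f.Q.coeff (f.d - 1) ≠ 0 := by
    intro h
    have h4 : sphDeriv f (OnePoint.infty : P1B K) =
        ‖(wr f).coeff (2 * f.d - 2)‖ / max ‖f.P.coeff f.d‖ ‖f.Q.coeff f.d‖ ^ 2 := rfl
    rw [h4, wr_zero f hQd h, norm_zero, zero_div] at hpos
    exact lt_irrefl _ hpos
  have hP : f.P.natDegree ≤ f.d := f.deg_eq ▸ le_max_left _ _
  have hQ : f.Q.natDegree ≤ f.d := f.deg_eq ▸ le_max_right _ _
  have hd := f.pos
  have hn1 : 0 < ‖f.Q.coeff (f.d - 1)‖ := norm_pos_iff.2 hQ1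
  obtain ⟨M, hM, hMb⟩ := coeff_bound f.Q
  obtain ⟨M', hM', hMb'⟩ := coeff_bound f.P
  intro U₀ hU₀
  obtain ⟨hi, r₀, hr₀, hr₀'⟩ := (hB K).2.1 U₀ hU₀
  -- the radius
  obtain ⟨r, hr1, hr2, hr3⟩ : ∃ r : ℝ, 1 ≤ r ∧ r₀ ≤ r ∧ M < ‖f.Q.coeff (f.d - 1)‖ * r := by
    refine ⟨max 1 (max r₀ (2 * M / ‖f.Q.coeff (f.d - 1)‖)), le_max_left _ _,
      (le_max_left _ _).trans (le_max_right _ _), ?_⟩
    have h1 : 2 * M / ‖f.Q.coeff (f.d - 1)‖ ≤
        max 1 (max r₀ (2 * M / ‖f.Q.coeff (f.d - 1)‖)) :=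
      (le_max_right _ _).trans (le_max_right _ _)
    have h2 := mul_le_mul_of_nonneg_left h1 hn1.le
    have h3 : ‖f.Q.coeff (f.d - 1)‖ * (2 * M / ‖f.Q.coeff (f.d - 1)‖) = 2 * M := by
      field_simp
    linarith
  have hr : 0 < r := by linarith
  refine ⟨Ui K r, ?_, ?_, ?_⟩
  · exact ((hB K).2.2.2 0 r).mem_nhds fun y hy => absurd hy (OnePoint.infty_ne_coe y)
  · intro x hx
    induction x using OnePoint.rec with
    | infty => exact hi
    | coe y => exact hr₀' y (lt_of_le_of_lt hr2 (hx y rfl))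
  · rw [hfix]
    have hmem : Ui K (M' * r / ‖f.Q.coeff (f.d - 1)‖) ∈ 𝓝 (OnePoint.infty : P1B K) :=
      ((hB K).2.2.2 0 _).mem_nhds fun y hy => absurd hy (OnePoint.infty_ne_coe y)
    refine Filter.eventually_of_mem (Filter.preimage_mem_comap hmem) ?_
    intro b hb
    have hlt := hb (cl b) rfl
    rw [(hG K b 0).1, sub_zero, div_lt_iff₀ hn1] at hlt
    have h1 := cnt_Ui hG hA f r b
    have h2 : nIn (f.P - C b * f.Q) {w | ‖w - 0‖ ≤ r} = f.d - 1 := by
      refine (nIn_eq hN _ 0 r hr (f.d - 1) ?_).2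
      have hc : ∀ i, (taylor 0 (f.P - C b * f.Q)).coeff i =
          f.P.coeff i - b * f.Q.coeff i := by
        intro i
        rw [taylor_zero, coeff_sub, coeff_C_mul]
      intro i hne
      rw [hc, hc]
      have hb1 : M' * r < ‖b * f.Q.coeff (f.d - 1)‖ := by
        rw [norm_mul]
        exact hlt
      have hM'r : M' ≤ M' * r := le_mul_of_one_le_right hM'.le hr1
      have hb2 : ‖f.P.coeff (f.d - 1)‖ < ‖b * f.Q.coeff (f.d - 1)‖ :=
        lt_of_le_of_lt ((hMb' _).trans hM'r) hb1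
      rw [← norm_sub_rev, norm_sub_rev (f.P.coeff (f.d - 1)), norm_sub_left hb2]
      have hri : 0 < r ^ i := pow_pos hr i
      have hrd : 0 < r ^ (f.d - 1) := pow_pos hr _
      have hb0 : 0 < ‖b‖ := by
        by_contra h0
        have h0' : ‖b‖ = 0 := le_antisymm (not_lt.1 h0) (norm_nonneg _)
        rw [norm_mul, h0', zero_mul] at hb1
        exact absurd hb1 (not_lt.2 (by positivity))
      rcases Nat.lt_or_ge f.d i with h3 | h3
      · rw [coeff_eq_zero_of_natDegree_lt (lt_of_le_of_lt hP h3),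
          coeff_eq_zero_of_natDegree_lt (lt_of_le_of_lt hQ h3)]
        simp only [mul_zero, sub_zero, norm_zero, zero_mul]
        exact mul_pos ((mul_pos hM' hr).trans hb1) hrd
      · have hkeyP : ‖f.P.coeff i‖ * r ^ i < ‖b * f.Q.coeff (f.d - 1)‖ * r ^ (f.d - 1) := by
          have h4 : r ^ i ≤ r ^ f.d := pow_le_pow_right₀ hr1 h3
          have h5 : r ^ f.d = r * r ^ (f.d - 1) := by
            rw [← pow_succ']
            congr 1
            omega
          calc ‖f.P.coeff i‖ * r ^ i ≤ M' * r ^ f.d :=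
                mul_le_mul (hMb' i) h4 hri.le hM'.le
            _ = (M' * r) * r ^ (f.d - 1) := by rw [h5]; ring
            _ < _ := mul_lt_mul_of_pos_right hb1 hrd
        have hkeyQ : ‖b * f.Q.coeff i‖ * r ^ i < ‖b * f.Q.coeff (f.d - 1)‖ * r ^ (f.d - 1) := by
          rcases Nat.eq_or_lt_of_le h3 with h4 | h4
          · rw [h4, hQd, mul_zero, norm_zero, zero_mul]
            exact mul_pos ((mul_pos hM' hr).trans hb1) hrd
          · have h5 : i + 1 ≤ f.d - 1 := by omega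
            have h6 : r ^ (i + 1) ≤ r ^ (f.d - 1) := pow_le_pow_right₀ hr1 h5
            rw [norm_mul, norm_mul, mul_assoc, mul_assoc]
            refine mul_lt_mul_of_pos_left ?_ hb0
            calc ‖f.Q.coeff i‖ * r ^ i ≤ M * r ^ i := mul_le_mul_of_nonneg_right (hMb i) hri.le
              _ < (‖f.Q.coeff (f.d - 1)‖ * r) * r ^ i := mul_lt_mul_of_pos_right hr3 hri
              _ = ‖f.Q.coeff (f.d - 1)‖ * r ^ (i + 1) := by rw [pow_succ]; ring
              _ ≤ _ := mul_le_mul_of_nonneg_left h6 hn1.le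
        rw [← lt_div_iff₀ hri] at hkeyP hkeyQ ⊢
        exact norm_sub_lt hkeyQ hkeyP
    omega

end

theorem main (hI : S_ISO.{u}) (hG : S_GLAM.{u}) (hB : S_NB.{u}) (hA : S_ACT.{u})
    (hN : S_NPOL.{u}) (hU : S_LDU.{u}) : S_LD1.{u} := by
  intro K _ _ _ f x hx hfix hpos
  refine localDeg_of hU f x ?_
  rcases hx with rfl | ⟨c, rfl⟩
  · exact caseI hG hB hA hN f hfix hpos
  · exact caseK hI hG hB hA hN f c hfix hpos

end Pool.Agent.W577.BE.Ld1
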